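import Pool.Agent.W787.QC.Defs

set_option autoImplicit false

open MeasureTheory Set Metric Filter Topology Real
open scoped ContDiff

noncomputable section

namespace Pool.Agent.W461.QC

open Pool.Agent.W787.QC

theorem cut : S_CUT := by
  intro g p hg hgp hdgp δ r hδ hr
  -- Lipschitz bound of the derivative
  have hg1 : ContDiff ℝ 1 (fderiv ℝ g) := hg.fderiv_right (m := 1) (by norm_cast)
  obtain ⟨K, t, ht, hK⟩ := hg1.contDiffAt.exists_lipschitzOnWith (x := p)
  obtain ⟨ε, hε, hεt⟩ := Metric.mem_nhds_iff.mp ht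
  have hKn : (0 : ℝ) ≤ K := K.2
  have hd : ∀ y ∈ ball p ε, ‖fderiv ℝ g y‖ ≤ K * ‖y - p‖ := by
    intro y hy
    have h1 := hK.dist_le_mul y (hεt hy) p (hεt (mem_ball_self hε))
    rwa [hdgp, dist_zero_right, dist_eq_norm] at h1
  -- the bump
  let b : ContDiffBump (0 : E) := ⟨1, 2, one_pos, one_lt_two⟩
  have hbs : ContDiff ℝ ∞ b := b.contDiff
  obtain ⟨C, hC⟩ := (hbs.continuous_fderiv (by simp)).bounded_above_of_compact_support
    (b.hasCompactSupport.fderiv (𝕜 := ℝ))
  have hC0 : 0 ≤ C := (norm_nonneg _).trans (hC 0)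
  -- choose the radius
  set M : ℝ := 4 * K + 4 * K * C + 1 with hM
  have hMpos : 0 < M := by positivity
  set ρ : ℝ := min (min 1 (r / 2)) (min (ε / 3) (δ / M)) with hρ
  have hρpos : 0 < ρ := by
    refine lt_min (lt_min one_pos (by positivity)) (lt_min (by positivity) (by positivity))
  have hρ1 : ρ ≤ 1 := (min_le_left _ _).trans (min_le_left _ _)
  have hρr : ρ ≤ r / 2 := (min_le_left _ _).trans (min_le_right _ _)
  have hρε : ρ ≤ ε / 3 := (min_le_right _ _).trans (min_le_left _ _)
  have hρδ : ρ ≤ δ / M := (min_le_right _ _).trans (min_le_right _ _)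
  have hρM : M * ρ ≤ δ := by
    have := mul_le_mul_of_nonneg_left hρδ hMpos.le
    rwa [mul_div_cancel₀ _ hMpos.ne'] at this
  -- bounds on the small ball
  have hsub : closedBall p (2 * ρ) ⊆ ball p ε := closedBall_subset_ball (by linarith)
  have hd' : ∀ y ∈ closedBall p (2 * ρ), ‖fderiv ℝ g y‖ ≤ K * (2 * ρ) := by
    intro y hy
    refine (hd y (hsub hy)).trans (mul_le_mul_of_nonneg_left ?_ hKn)
    rw [← dist_eq_norm]; exact hy
  have hdiff : Differentiable ℝ g := hg.differentiable (by simp)
  have hv : ∀ y ∈ closedBall p (2 * ρ), |g y| ≤ K * (2 * ρ) * (2 * ρ) := by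
    intro y hy
    have h1 := (convex_closedBall p (2 * ρ)).norm_image_sub_le_of_norm_fderiv_le (𝕜 := ℝ)
      (fun x _ => hdiff x) hd' (mem_closedBall_self (by positivity)) hy
    rw [hgp, sub_zero, Real.norm_eq_abs] at h1
    refine h1.trans (mul_le_mul_of_nonneg_left ?_ (by positivity))
    rw [← dist_eq_norm]; exact hy
  -- the function
  set β : E → ℝ := fun y => b ((1 / ρ) • (y - p)) with hβ
  have hβs : ContDiff ℝ ∞ β := by
    have h0 : ContDiff ℝ ∞ (fun y : E => (1 / ρ) • (y - p)) := by fun_prop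
    exact hbs.comp h0
  have hβd : ∀ y, ‖fderiv ℝ β y‖ ≤ C * (1 / ρ) := by
    intro y
    have h1 : HasFDerivAt (fun y : E => (1 / ρ) • (y - p))
        ((1 / ρ) • ContinuousLinearMap.id ℝ E) y :=
      ((hasFDerivAt_id y).sub_const p).const_smul (1 / ρ)
    have h2 : HasFDerivAt b (fderiv ℝ b ((1 / ρ) • (y - p))) ((1 / ρ) • (y - p)) :=
      ((hbs.differentiable (by simp)) _).hasFDerivAt
    have h3 := h2.comp y h1
    have h4 : fderiv ℝ β y = (fderiv ℝ b ((1 / ρ) • (y - p))).comp
        ((1 / ρ) • ContinuousLinearMap.id ℝ E) := h3.fderiv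
    rw [h4]
    refine (ContinuousLinearMap.opNorm_comp_le _ _).trans ?_
    refine mul_le_mul (hC _) ?_ (norm_nonneg _) hC0
    rw [norm_smul, Real.norm_eq_abs, abs_of_pos (by positivity)]
    refine mul_le_of_le_one_right (by positivity) ContinuousLinearMap.norm_id_le
  have hβ0 : ∀ y, 2 * ρ ≤ dist y p → β y = 0 := by
    intro y hy
    refine b.zero_of_le_dist ?_
    rw [dist_zero_right, norm_smul, Real.norm_eq_abs, abs_of_pos (by positivity), ← dist_eq_norm]
    change (2 : ℝ) ≤ _
    rw [one_div, inv_mul_eq_div, le_div_iff₀ hρpos]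
    exact hy
  have hβ1 : ∀ y, dist y p ≤ ρ → β y = 1 := by
    intro y hy
    refine b.one_of_mem_closedBall ?_
    rw [mem_closedBall, dist_zero_right, norm_smul, Real.norm_eq_abs, abs_of_pos (by positivity),
      ← dist_eq_norm]
    change _ ≤ (1 : ℝ)
    rw [one_div, inv_mul_eq_div, div_le_one hρpos]
    exact hy
  have hβn : ∀ y, |β y| ≤ 1 := by
    intro y
    rw [abs_of_nonneg b.nonneg]
    exact b.le_one
  have hfz : ∀ y, 2 * ρ ≤ dist y p → β y * g y = 0 := fun y hy => by rw [hβ0 y hy, zero_mul]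
  refine ⟨fun y => β y * g y, hβs.mul hg, ?_, ?_, ?_⟩
  · filter_upwards [closedBall_mem_nhds p hρpos] with y hy
    rw [hβ1 y hy, one_mul]
  · intro y hy
    exact hfz y (by linarith)
  · intro y
    by_cases hy : dist y p ≤ 2 * ρ
    · have hv' := hv y hy
      have hdy := hd' y hy
      have hρρ : ρ * ρ ≤ ρ := by nlinarith
      constructor
      · rw [abs_mul]
        have h1 : |β y| * |g y| ≤ 1 * (K * (2 * ρ) * (2 * ρ)) :=
          mul_le_mul (hβn y) hv' (abs_nonneg _) zero_le_one
        refine h1.trans (le_trans ?_ hρM)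
        have h2 : K * (ρ * ρ) ≤ K * ρ := mul_le_mul_of_nonneg_left hρρ hKn
        have h3 : 0 ≤ K * C * ρ := by positivity
        nlinarith
      · have h1 : fderiv ℝ (fun y => β y * g y) y = β y • fderiv ℝ g y + g y • fderiv ℝ β y :=
          fderiv_mul ((hβs.differentiable (by simp)) y) (hdiff y)
        rw [h1]
        refine (norm_add_le _ _).trans ?_
        rw [norm_smul, norm_smul, Real.norm_eq_abs, Real.norm_eq_abs]
        have h2 : |β y| * ‖fderiv ℝ g y‖ ≤ 1 * (K * (2 * ρ)) :=
          mul_le_mul (hβn y) hdy (norm_nonneg _) zero_le_one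
        have h3 : |g y| * ‖fderiv ℝ β y‖ ≤ (K * (2 * ρ) * (2 * ρ)) * (C * (1 / ρ)) :=
          mul_le_mul hv' (hβd y) (norm_nonneg _) (by positivity)
        have h4 : (K * (2 * ρ) * (2 * ρ)) * (C * (1 / ρ)) = 4 * K * C * ρ := by
          field_simp
          ring
        rw [h4] at h3
        refine le_trans (add_le_add h2 h3) (le_trans ?_ hρM)
        have h5 : 0 ≤ K * ρ := by positivity
        nlinarith
    · push Not at hy
      have hev : (fun y => β y * g y) =ᶠ[𝓝 y] fun _ => (0 : ℝ) := by
        have hopen : IsOpen {z : E | 2 * ρ < dist z p} :=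
          isOpen_lt continuous_const (continuous_id.dist continuous_const)
        filter_upwards [hopen.mem_nhds hy] with z hz
        exact hfz z (le_of_lt hz)
      constructor
      · have := hev.self_of_nhds
        simp only at this
        change |β y * g y| ≤ δ
        rw [this, abs_zero]
        exact hδ.le
      · rw [hev.fderiv_eq, fderiv_const_apply, norm_zero]
        exact hδ.le

end Pool.Agent.W461.QC
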